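import Pool.Agent.W907.SG.Stmts

/-!
# The `-1` eigenspace of an involution and coning (project SG)
-/

set_option autoImplicit false
set_option linter.unusedSectionVars false

namespace Pool.Agent.W597.SG

open Module Pool.Agent.W907.SG

section dims

variable {F E : Type} [Field F] [AddCommGroup E] [Module F E] [FiniteDimensional F E]

lemma dim1 (Z' B' Z B : Submodule F E) (h1 : Z' ≤ Z) (h2 : B ≤ Z) (h4 : Z' ⊓ B ≤ B') :
    finrank F Z' - finrank F B' ≤ finrank F Z - finrank F B := by
  have e := Submodule.finrank_sup_add_finrank_inf_eq Z' B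
  have e1 := Submodule.finrank_mono (sup_le h1 h2)
  have e2 := Submodule.finrank_mono h4
  have e3 := Submodule.finrank_mono h2
  omega

lemma dim2 (Z1 B1 Z2 B2 : Submodule F E) (h1 : B1 ≤ Z1) (h2 : B1 ≤ B2) (h3 : Z2 ≤ Z1 ⊔ B2) :
    finrank F Z2 - finrank F B2 ≤ finrank F Z1 - finrank F B1 := by
  have e := Submodule.finrank_sup_add_finrank_inf_eq Z1 B2
  have e1 := Submodule.finrank_mono h3
  have e2 := Submodule.finrank_mono (le_inf h1 h2)
  have e3 := Submodule.finrank_mono h1
  omega

end dims

section proj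

variable {F M : Type} [Field F] [AddCommGroup M] [Module F M]

/-- the projection to the `-1` eigenspace -/
noncomputable def pj (a : M →ₗ[F] M) : M →ₗ[F] M := (2 : F)⁻¹ • (LinearMap.id - a)

lemma pj_apply (a : M →ₗ[F] M) (m : M) : pj a m = (2 : F)⁻¹ • (m - a m) := rfl

lemma a_pj {a : M →ₗ[F] M} (h : ∀ m, a (a m) = m) (m : M) : a (pj a m) = -pj a m := by
  rw [pj_apply, map_smul, map_sub, h, ← smul_neg, neg_sub]

lemma pj_of_neg {a : M →ₗ[F] M} (h2 : (2 : F) ≠ 0) {m : M} (h : a m = -m) : pj a m = m := by
  rw [pj_apply, h, sub_neg_eq_add, ← two_smul F m, smul_smul, inv_mul_cancel₀ h2, one_smul]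

lemma comm_pj {a b : M →ₗ[F] M} (h : ∀ m, b (a m) = a (b m)) (m : M) :
    b (pj a m) = pj a (b m) := by
  rw [pj_apply, pj_apply, map_smul, map_sub, h]

end proj

section complexes

variable {V F M : Type} [Fintype V] [LinearOrder V] [Field F] [AddCommGroup M] [Module F M]

lemma bd_comp (f : M →ₗ[F] M) (c : Finset V → M) :
    bd F (fun T => f (c T)) = fun T => f (bd F c T) := by
  funext T
  rw [bd_apply, bd_apply, map_sum]
  exact Finset.sum_congr rfl fun v _ => by rw [map_zsmul]

lemma pj_mem {G : SimpleGraph V} {ρ : V → M →ₗ[F] M} {A S : Set V} {v : V}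
    (hinv : ∀ m, ρ v (ρ v m) = m) (hcomm : ∀ u ∈ A ∪ S, ∀ m, ρ u (ρ v m) = ρ v (ρ u m)) {i : ℕ}
    {c : Finset V → M} (hc : c ∈ KK G ρ A S i) :
    (fun T => pj (ρ v) (c T)) ∈ KK G ρ A (insert v S) i := by
  rw [mem_KK] at hc ⊢
  obtain ⟨h1, h2⟩ := hc
  refine ⟨fun T hT => by simp only [h1 T hT, map_zero], fun T t ht => ?_⟩
  by_cases h0 : G.IsClique (T : Set V) ∧ (T : Set V) ⊆ A ∧ T.card = i
  · rcases eq_or_ne t v with rfl | htv
    · exact a_pj hinv _
    · have ht' : t ∈ T ∨ t ∈ S := by
        rcases ht with h | h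
        · exact Or.inl h
        · exact Or.inr (h.resolve_left htv)
      have hA : t ∈ A ∪ S := by
        rcases ht' with h | h
        · exact Or.inl (h0.2.1 h)
        · exact Or.inr h
      show ρ t (pj (ρ v) (c T)) = -pj (ρ v) (c T)
      rw [comm_pj (hcomm t hA), h2 T t ht', map_neg]
  · simp only [h1 T h0, map_zero, neg_zero]

lemma KK_mono_S {G : SimpleGraph V} {ρ : V → M →ₗ[F] M} {A S S' : Set V} (h : S ⊆ S') (i : ℕ) :
    KK G ρ A S' i ≤ KK G ρ A S i := by
  intro c hc
  rw [mem_KK] at hc ⊢
  exact ⟨hc.1, fun T t ht => hc.2 T t (ht.imp_right fun h' => h h')⟩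

lemma KK_mono_A {G : SimpleGraph V} {ρ : V → M →ₗ[F] M} {A A' S : Set V} (h : A ⊆ A') (i : ℕ) :
    KK G ρ A S i ≤ KK G ρ A' S i := by
  intro c hc
  rw [mem_KK] at hc ⊢
  refine ⟨fun T hT => hc.1 T fun h' => hT ⟨h'.1, h'.2.1.trans h, h'.2.2⟩, hc.2⟩

lemma pj_id {G : SimpleGraph V} {ρ : V → M →ₗ[F] M} {A S : Set V} {v : V} (h2 : (2 : F) ≠ 0)
    {i : ℕ} {c : Finset V → M} (hc : c ∈ KK G ρ A (insert v S) i) :
    (fun T => pj (ρ v) (c T)) = c := by
  funext T
  exact pj_of_neg h2 (hc.2 T v (Or.inr (Set.mem_insert v S)))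

end complexes

theorem eig : S_EIG := by
  intro V F M _ _ _ _ _ _ G ρ A S v h2 hinv hcomm i
  unfold beta
  refine dim1 _ _ _ _ ?_ (BB_le_ZZ G ρ A S i) ?_
  · exact inf_le_inf_right _ (KK_mono_S (Set.subset_insert v S) i)
  · rintro z ⟨hz, c, hc, rfl⟩
    refine ⟨fun T => pj (ρ v) (c T), pj_mem hinv hcomm hc, ?_⟩
    rw [bd_comp]
    exact pj_id h2 hz.1

theorem cone : S_CONE := by
  intro V F M _ _ _ _ _ _ G ρ A v h2 hvA hadj hinv hcomm i
  unfold beta
  refine dim2 _ _ _ _ (BB_le_ZZ G ρ A ∅ i) ?_ ?_
  · exact Submodule.map_mono (KK_mono_A (Set.subset_insert v A) _)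
  intro z hz
  obtain ⟨hzK, hz0⟩ := hz
  have hz0' : bd F z = 0 := hz0
  classical
  set c : Finset V → M := fun T =>
    if v ∈ T then sg v (T.erase v) • pj (ρ v) (z (T.erase v)) else 0 with hcdef
  have hKz := mem_KK.1 hzK
  -- `c` is a chain
  have hc : c ∈ KK G ρ (insert v A) ∅ (i + 1) := by
    rw [mem_KK]
    have hsupp : ∀ T : Finset V, v ∈ T → z (T.erase v) ≠ 0 →
        G.IsClique ((T.erase v : Finset V) : Set V) ∧ ((T.erase v : Finset V) : Set V) ⊆ A ∧
          (T.erase v).card = i := by
      intro T hT h0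
      have h3 : G.IsClique ((T.erase v : Finset V) : Set V) ∧
          ((T.erase v : Finset V) : Set V) ⊆ insert v A ∧ (T.erase v).card = i := by
        by_contra h4
        exact h0 (hKz.1 _ h4)
      refine ⟨h3.1, ?_, h3.2.2⟩
      intro u hu
      rcases h3.2.1 hu with h4 | h4
      · exfalso
        rw [h4] at hu
        simp at hu
      · exact h4
    constructor
    · intro T hT
      by_cases hv : v ∈ T
      · simp only [hcdef, if_pos hv]
        by_cases h0 : z (T.erase v) = 0
        · rw [h0, map_zero, smul_zero]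
        · exfalso
          obtain ⟨g1, g2, g3⟩ := hsupp T hv h0
          apply hT
          have hTe : T = insert v (T.erase v) := (Finset.insert_erase hv).symm
          refine ⟨?_, ?_, ?_⟩
          · rw [hTe, Finset.coe_insert, SimpleGraph.isClique_insert]
            exact ⟨g1, fun b hb _ => hadj b (g2 hb)⟩
          · rw [hTe, Finset.coe_insert]
            exact Set.insert_subset_insert g2
          · rw [Finset.card_erase_of_mem hv] at g3
            have := Finset.card_pos.2 ⟨v, hv⟩
            omega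
      · simp only [hcdef, if_neg hv]
    · intro T t ht
      have htT : t ∈ T := by
        rcases ht with h | h
        · exact h
        · exact absurd h (Set.notMem_empty t)
      by_cases hv : v ∈ T
      · simp only [hcdef, if_pos hv]
        rw [map_zsmul, ← smul_neg]
        congr 1
        rcases eq_or_ne t v with rfl | htv
        · exact a_pj hinv _
        · by_cases h0 : z (T.erase v) = 0
          · rw [h0, map_zero, map_zero, neg_zero]
          · obtain ⟨g1, g2, g3⟩ := hsupp T hv h0
            have htE : t ∈ T.erase v := Finset.mem_erase.2 ⟨htv, htT⟩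
            rw [comm_pj (hcomm t (g2 htE)), hKz.2 _ t (Or.inl htE), map_neg]
      · simp only [hcdef, if_neg hv, map_zero, neg_zero]
  -- `z - bd c` vanishes on the sets containing `v`
  have hkey : ∀ T : Finset V, v ∈ T → bd F c T = z T := by
    intro T' hv
    obtain ⟨T, hT, rfl⟩ : ∃ T : Finset V, v ∉ T ∧ insert v T = T' :=
      ⟨T'.erase v, Finset.notMem_erase v T', Finset.insert_erase hv⟩
    have e1 : bd F c (insert v T) = -(sg v T • pj (ρ v) (∑ u ∈ (insert v T)ᶜ,
        sg u T • z (insert u T))) := by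
      rw [bd_apply, map_sum, Finset.smul_sum, ← Finset.sum_neg_distrib]
      refine Finset.sum_congr rfl fun u hu => ?_
      have huv : u ≠ v ∧ u ∉ T := by simpa using hu
      have hsw := sg_swap u v T huv.1 huv.2 hT
      have hcv : c (insert u (insert v T)) =
          sg v (insert u T) • pj (ρ v) (z (insert u T)) := by
        have h5 : v ∈ insert u (insert v T) := by simp
        have h6 : (insert u (insert v T)).erase v = insert u T := by
          rw [Finset.insert_comm, Finset.erase_insert]
          simp only [Finset.mem_insert, not_or]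
          exact ⟨huv.1.symm, hT⟩
        simp only [hcdef, if_pos h5, h6]
      rw [hcv, smul_smul, map_zsmul, smul_smul, ← neg_smul]
      congr 1
      have s1 := sg_mul_self v T
      have s2 := sg_mul_self v (insert u T)
      calc sg u (insert v T) * sg v (insert u T)
          = (sg u (insert v T) * sg v T) * sg v T * sg v (insert u T) := by
            rw [mul_assoc (sg u (insert v T)), s1, mul_one]
        _ = -(sg v (insert u T) * sg v (insert u T)) * (sg u T * sg v T) := by
            rw [hsw]; ring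
        _ = -(sg v T * sg u T) := by rw [s2]; ring
    have e2 : ∑ u ∈ (insert v T)ᶜ, sg u T • z (insert u T) = -(sg v T • z (insert v T)) := by
      have h3 : bd F z T = 0 := by rw [hz0']; rfl
      rw [bd_apply] at h3
      have h4 : Tᶜ = insert v ((insert v T)ᶜ) := by
        ext u
        simp only [Finset.mem_compl, Finset.mem_insert, not_or]
        constructor
        · intro hu
          rcases eq_or_ne u v with h | h
          · exact Or.inl h
          · exact Or.inr ⟨h, hu⟩
        · rintro (h | h)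
          · rw [h]; exact hT
          · exact h.2
      rw [h4, Finset.sum_insert (by simp)] at h3
      exact (neg_eq_of_add_eq_zero_right h3).symm
    rw [e1, e2, map_neg, smul_neg, neg_neg, map_zsmul, smul_smul, sg_mul_self, one_smul]
    exact pj_of_neg h2 (hKz.2 _ v (Or.inl (Finset.mem_insert_self v T)))
  have hbc := bd_mem_KK hc
  have hz1 : z - bd F c ∈ ZZ G ρ A ∅ i := by
    constructor
    · have h3 := mem_KK.1 (Submodule.sub_mem _ hzK hbc)
      show z - bd F c ∈ KK G ρ A ∅ i
      rw [mem_KK]
      refine ⟨fun T hT => ?_, h3.2⟩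
      by_cases hv : v ∈ T
      · show z T - bd F c T = 0
        rw [hkey T hv, sub_self]
      · apply h3.1
        rintro ⟨g1, g2, g3⟩
        apply hT
        refine ⟨g1, fun u hu => ?_, g3⟩
        rcases g2 hu with h4 | h4
        · rw [h4] at hu
          exact absurd hu hv
        · exact h4
    · show bd F (z - bd F c) = 0
      rw [map_sub, hz0', bd_bd, sub_zero]
  have : z = (z - bd F c) + bd F c := by abel
  rw [this]
  exact Submodule.add_mem_sup hz1 ⟨c, hc, rfl⟩

end Pool.Agent.W597.SG
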